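import Pool.Agent.Y882.KW.Num

/-! Another numerical condition for the weights of Richert. -/

set_option autoImplicit false

namespace Pool.Agent.Y882.KW

open Real

theorem cond_C (τ lam : ℝ) (hτ : 0 < τ) (hlam : 0 < lam) (h : 77 / 80 ≤ 1 / lam) :
    ∫ x in (τ / 4)..(9 / 10 * τ), (lam - lam / (9 / 10 * τ) * x) / (τ - x) / x <
      log (τ / (τ / 4) - 1) / τ := by
  apply cond_log lam τ (τ / 4) (9 / 10 * τ) hlam (by linarith) (by linarith) (by linarith)
  have e1 : 9 / 10 * τ / (τ / 4) = 18 / 5 := by field_simp; norm_num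
  have e2 : τ / (9 / 10 * τ) - 1 = 1 / 9 := by field_simp; norm_num
  have e3 : (τ - τ / 4) / (τ - 9 / 10 * τ) = 15 / 2 := by field_simp; norm_num
  have e4 : τ / (τ / 4) - 1 = 3 := by field_simp; norm_num
  rw [e1, e2, e3, e4]
  have h2 := Real.log_two_gt_d9
  have h2' := Real.log_two_lt_d9
  have h3 := log3
  have h5 := log5
  have l1 : log (18 / 5 : ℝ) = log 2 + 2 * log 3 - log 5 := by
    rw [log_div (by norm_num) (by norm_num)]
    have : log (18 : ℝ) = log 2 + 2 * log 3 := by
      rw [show (18 : ℝ) = 2 * 3 ^ 2 by norm_num, log_mul (by norm_num) (by norm_num), log_pow]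
      norm_num
    rw [this]
  have l2 : log (15 / 2 : ℝ) = log 3 + log 5 - log 2 := by
    rw [log_div (by norm_num) (by norm_num)]
    have : log (15 : ℝ) = log 3 + log 5 := by
      rw [show (15 : ℝ) = 3 * 5 by norm_num, log_mul (by norm_num) (by norm_num)]
    rw [this]
  rw [l1, l2]
  have h6 : 77 / 80 * log 3 ≤ 1 / lam * log 3 :=
    mul_le_mul_of_nonneg_right h (by linarith [h3.1])
  refine lt_of_lt_of_le ?_ h6
  linarith [h3.1, h3.2, h5.1, h5.2]

end Pool.Agent.Y882.KW
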