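import Pool.Agent.Y882.GW.Sq2
import Pool.Agent.Y882.GW.Num2
import Pool.Agent.Y882.Cum

/-! Almost primes `n - p` with a small prime `p`: one block and assembly. -/

set_option autoImplicit false

namespace Pool.Agent.Y882.GW

open Finset Filter
open Pool.Agent.W23.DC
open Pool.Agent.Y882
open Pool.Agent.Y882.PX
open Pool.Agent.Y882.KW
open Pool.Agent.Y882.SI

open Classical in
/-- the primes `p` in `(x / 2, x)` such that `n - p` has at most `r` prime factors, all at least `z` -/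
noncomputable def gp (r : ℕ) (x z : ℝ) (n : ℕ) : Finset ℕ :=
  (Icc 1 ⌊x⌋₊).filter (fun p : ℕ => p.Prime ∧ x / 2 < p ∧ (p : ℝ) < x ∧
    (n - p).primeFactorsList.length ≤ r ∧ ∀ q : ℕ, q.Prime → q ∣ (n - p) → z ≤ q)

open Classical in
/-- medium squares, pointwise -/
theorem med (ζ ξ : ℝ) (hζ : 0 < ζ) (hξ : ξ ≤ 1) : ∃ Y0 : ℕ, ∀ Y : ℕ, Y0 ≤ Y → ∀ X : ℕ,
    ((Y : ℝ) ^ ξ) ^ 2 ≤ 2 * X → ∀ n : ℕ,
      (((Icc 1 X).filter (fun m => SBad Y ζ ξ n m)).card : ℝ) ≤ X * (6 / (Y : ℝ) ^ ζ) := by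
  obtain ⟨Y0, H⟩ := pr_sq ζ ξ hζ hξ
  refine ⟨max Y0 2, fun Y hY X hX n => ?_⟩
  obtain ⟨g1, g2⟩ := H Y ((le_max_left _ _).trans hY)
  have hY2 : 2 ≤ Y := (le_max_right _ _).trans hY
  have hX0 : (0 : ℝ) ≤ X := Nat.cast_nonneg _
  have hsub : (Icc 1 X).filter (fun m => SBad Y ζ ξ n m) ⊆ (pr Y ζ ξ).biUnion
      (fun q => (Icc 1 X).filter (fun m : ℕ => ((q ^ 2 : ℕ) : ℤ) ∣ (m : ℤ) - n)) := by
    intro m hm
    rw [mem_filter] at hm
    obtain ⟨hm1, q, hq, hqn⟩ := hm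
    rw [mem_biUnion]
    refine ⟨q, hq, ?_⟩
    rw [mem_filter]
    refine ⟨hm1, ?_⟩
    rw [← neg_sub]
    exact hqn.neg_right
  calc (((Icc 1 X).filter (fun m => SBad Y ζ ξ n m)).card : ℝ) ≤
      ((∑ q ∈ pr Y ζ ξ, ((Icc 1 X).filter
        (fun m : ℕ => ((q ^ 2 : ℕ) : ℤ) ∣ (m : ℤ) - n)).card : ℕ) : ℝ) := by
        exact_mod_cast (card_le_card hsub).trans card_biUnion_le
    _ ≤ ∑ q ∈ pr Y ζ ξ, (X * 3) * (1 / (q : ℝ) ^ 2) := by
        push_cast
        apply sum_le_sum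
        intro q hq
        obtain ⟨hq1, _, hq3⟩ := pr_mem Y q ζ ξ hY2 hq
        have hq0 : (0 : ℝ) < q := by exact_mod_cast hq1.pos
        have h5 := class_count (q ^ 2) (pow_pos hq1.pos 2) X n
        push_cast at h5
        refine h5.trans ?_
        have h6 : (q : ℝ) ^ 2 ≤ 2 * X := (pow_le_pow_left₀ hq0.le hq3.le 2).trans hX
        have h7 : 1 ≤ 2 * ((X : ℝ) / (q : ℝ) ^ 2) := by
          rw [mul_div_assoc', le_div_iff₀ (by positivity)]
          linarith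
        have h8 : (X : ℝ) * 3 * (1 / (q : ℝ) ^ 2) = X / (q : ℝ) ^ 2 + 2 * (X / (q : ℝ) ^ 2) := by ring
        rw [h8]
        linarith
    _ = (X * 3) * ∑ q ∈ pr Y ζ ξ, 1 / (q : ℝ) ^ 2 := by rw [mul_sum]
    _ ≤ (X * 3) * (2 / (Y : ℝ) ^ ζ) := mul_le_mul_of_nonneg_left g1 (by positivity)
    _ = _ := by ring

theorem sbad_split (Y : ℕ) (ζ ξ υ : ℝ) (n m : ℕ) (h : SBad Y ζ υ n m) :
    SBad Y ζ ξ n m ∨ SBad Y ξ υ n m := by
  classical
  obtain ⟨q, hq, hd⟩ := h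
  unfold pr at hq
  rw [mem_filter] at hq
  rcases lt_or_ge (tt Y q) ξ with h1 | h1
  · left
    exact ⟨q, by unfold pr; rw [mem_filter]; exact ⟨hq.1, hq.2.1, hq.2.2.1, h1⟩, hd⟩
  · right
    exact ⟨q, by unfold pr; rw [mem_filter]; exact ⟨hq.1, hq.2.1, h1, hq.2.2.2⟩, hd⟩

open Classical in
theorem blk (r : ℕ) (θ τ ζ υ lam S : ℝ) (hθ0 : 0 < θ) (hθ1 : θ ≤ 1) (hζ0 : 0 < ζ)
    (h2 : 2 * ζ < τ) (h4 : τ ≤ 4 * ζ) (hτ2 : 1 / 2 ≤ τ) (hτ : τ < 1) (hζυ : ζ ≤ υ) (hυτ : υ < τ)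
    (hlam : 0 < lam)
    (hJ0 : ∫ x in ζ..υ, (lam - lam / υ * x) / (τ - x) / x < Real.log (τ / ζ - 1) / τ)
    (hS : 1 < S) (hr : 1 / lam + S / υ ≤ r + 1) (ε : ℝ) (hε : 0 < ε) :
    ∃ δ : ℝ, 0 < δ ∧ ∃ Y0 : ℕ, ∀ Y : ℕ, Y0 ≤ Y →
      (((Ioc Y (2 * Y)).filter (fun n => Even n ∧ ((gp r ((Y : ℝ) ^ θ) ((Y : ℝ) ^ ζ) n).card : ℝ) <
        δ * (Y : ℝ) ^ θ / Real.log Y ^ 2 * sgs n)).card : ℝ) ≤
      (Y : ℝ) ^ (max (2 * τ - θ) (max (1 - max ζ (θ / 2)) υ) + ε) := by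
  have hυ0 : 0 < υ := by linarith
  have hυ1 : υ ≤ 1 := by linarith
  set ξ : ℝ := max ζ (θ / 2) with hξ
  have hζξ : ζ ≤ ξ := le_max_left _ _
  have hθξ : θ / 2 ≤ ξ := le_max_right _ _
  have hξ0 : 0 < ξ := hζ0.trans_le hζξ
  have hξ1 : ξ ≤ 1 := max_le (by linarith) (by linarith)
  obtain ⟨δ, hδ, Y1, HD⟩ := dyadic θ τ ζ υ lam (lam / υ) (ε / 2) hθ0 hθ1 hζ0 h2 h4 hτ2 hτ hζυ hυτ
    hlam.le (by positivity) (by rw [div_mul_cancel₀ _ hυ0.ne']) hJ0 (by linarith)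
  obtain ⟨Y2, HS⟩ := shift_pos ξ υ hξ0 hυ1
  obtain ⟨Y3, HM⟩ := med ζ ξ hζ0 hξ1
  -- the small power which is lost
  set s : ℝ := min (ε / 4) (ζ / 2) with hs
  have hs0 : 0 < s := lt_min (by linarith) (by linarith)
  have hsε : s ≤ ε / 4 := min_le_left _ _
  have hsζ : s ≤ ζ / 2 := min_le_right _ _
  have ev1 := polylog (16 / δ) 2 s hs0
  have ev2 : ∀ᶠ Y : ℕ in atTop, (16 : ℝ) ≤ (Y : ℝ) ^ (ζ - s) :=
    ((tendsto_rpow_atTop (by linarith)).comp tendsto_natCast_atTop_atTop).eventually_ge_atTop _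
  have ev3 : ∀ᶠ Y : ℕ in atTop, (2 : ℝ) ≤ (Y : ℝ) ^ (S - 1) :=
    ((tendsto_rpow_atTop (by linarith)).comp tendsto_natCast_atTop_atTop).eventually_ge_atTop _
  have ev4 : ∀ᶠ Y : ℕ in atTop, (16 : ℝ) ≤ (Y : ℝ) ^ (ε / 4) :=
    ((tendsto_rpow_atTop (by linarith)).comp tendsto_natCast_atTop_atTop).eventually_ge_atTop _
  have ev5 : ∀ᶠ Y : ℕ in atTop, (4 : ℝ) ≤ (Y : ℝ) ^ θ :=
    ((tendsto_rpow_atTop hθ0).comp tendsto_natCast_atTop_atTop).eventually_ge_atTop _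
  obtain ⟨Y4, hY4⟩ := eventually_atTop.1
    (ev1.and (ev2.and (ev3.and (ev4.and (ev5.and (eventually_ge_atTop 3))))))
  refine ⟨δ / 4, by positivity, max (max Y1 Y2) (max Y3 Y4), ?_⟩
  intro Y hY
  obtain ⟨e1, e2, e3, e4, e5, e6⟩ := hY4 Y (((le_max_right _ _).trans (le_max_right _ _)).trans hY)
  have hY1 : Y1 ≤ Y := ((le_max_left _ _).trans (le_max_left _ _)).trans hY
  have hY2 : Y2 ≤ Y := ((le_max_right _ _).trans (le_max_left _ _)).trans hY
  have hY3 : Y3 ≤ Y := ((le_max_left _ _).trans (le_max_right _ _)).trans hY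
  have hYr : (3 : ℝ) ≤ Y := by exact_mod_cast e6
  have hY0 : (0 : ℝ) < Y := by linarith
  have hY1r : (1 : ℝ) ≤ Y := by linarith
  have hlY : 0 < Real.log Y := Real.log_pos (by linarith)
  set x : ℝ := (Y : ℝ) ^ θ with hx
  have hxY : x ≤ Y := by
    calc (Y : ℝ) ^ θ ≤ (Y : ℝ) ^ (1 : ℝ) := Real.rpow_le_rpow_of_exponent_le hY1r hθ1
      _ = Y := Real.rpow_one _
  have hx0 : 0 < x := by linarith
  set X : ℕ := ⌊x⌋₊ with hX
  have hXx : (X : ℝ) ≤ x := Nat.floor_le hx0.le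
  have hX1 : 1 ≤ X := Nat.le_floor (by push_cast; linarith)
  have hXpos : (0 : ℝ) < X := by exact_mod_cast hX1
  set t : ℝ := (Y : ℝ) ^ s with ht
  have ht0 : 0 < t := by positivity
  -- the sets of exceptions
  set A1 := (Ioc Y (2 * Y)).filter (fun n => Even n ∧
    (cnt x (WW Y ζ υ lam (lam / υ)) n : ℝ) < δ * x / Real.log Y ^ 2 * sgs n) with hA1
  set A2 := (Icc 1 (2 * Y)).filter (fun n => (X : ℝ) / t <
      (((Icc 1 X).filter (fun m => SBad Y ξ υ n m)).card : ℝ)) with hA2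
  have hsub : (Ioc Y (2 * Y)).filter (fun n => Even n ∧ ((gp r x ((Y : ℝ) ^ ζ) n).card : ℝ) <
        δ / 4 * x / Real.log Y ^ 2 * sgs n) ⊆ A1 ∪ A2 := by
    intro n hn
    rw [mem_filter, mem_Ioc] at hn
    obtain ⟨⟨hn1, hn2⟩, hev, hlt⟩ := hn
    rw [mem_union]
    by_contra hcon
    push Not at hcon
    obtain ⟨hc1, hc2⟩ := hcon
    have g1 : δ * x / Real.log Y ^ 2 * sgs n ≤ (cnt x (WW Y ζ υ lam (lam / υ)) n : ℝ) := by
      by_contra h'
      exact hc1 (by rw [hA1, mem_filter, mem_Ioc]; exact ⟨⟨hn1, hn2⟩, hev, not_le.1 h'⟩)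
    have g2 : (((Icc 1 X).filter (fun m => SBad Y ξ υ n m)).card : ℝ) ≤ (X : ℝ) / t := by
      by_contra h'
      exact hc2 (by rw [hA2, mem_filter, mem_Icc]; exact ⟨⟨by omega, hn2⟩, not_le.1 h'⟩)
    have g3 : (((Icc 1 X).filter (fun m => SBad Y ζ ξ n m)).card : ℝ) ≤ (X : ℝ) / t := by
      rcases le_or_gt (θ / 2) ζ with hc | hc
      · -- no primes
        have hξζ : ξ = ζ := max_eq_left hc
        have : (Icc 1 X).filter (fun m => SBad Y ζ ξ n m) = ∅ := by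
          apply filter_eq_empty_iff.2
          rintro m _ ⟨q, hq, _⟩
          unfold pr at hq
          rw [mem_filter, hξζ] at hq
          linarith [hq.2.2.1, hq.2.2.2]
        rw [this]
        simp only [card_empty, Nat.cast_zero]
        positivity
      · have hξθ : ξ = θ / 2 := max_eq_right hc.le
        have h8 : ((Y : ℝ) ^ ξ) ^ 2 ≤ 2 * X := by
          rw [hξθ, ← Real.rpow_natCast, ← Real.rpow_mul hY0.le]
          have h9 : θ / 2 * ((2 : ℕ) : ℝ) = θ := by push_cast; ring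
          rw [h9, ← hx]
          have h10 := Nat.lt_floor_add_one x
          rw [← hX] at h10
          have h11 : (1 : ℝ) ≤ X := by exact_mod_cast hX1
          linarith
        refine (HM Y hY3 X h8 n).trans ?_
        rw [div_eq_mul_inv (X : ℝ) t]
        apply mul_le_mul_of_nonneg_left _ hXpos.le
        rw [div_le_iff₀ (by positivity), ← div_eq_inv_mul, le_div_iff₀ ht0]
        have h9 : (Y : ℝ) ^ ζ = (Y : ℝ) ^ (ζ - s) * t := by
          rw [ht, ← Real.rpow_add hY0]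
          congr 1
          ring
        rw [h9]
        apply mul_le_mul_of_nonneg_right _ ht0.le
        linarith
    have hkey : cnt x (WW Y ζ υ lam (lam / υ)) n ≤ (gp r x ((Y : ℝ) ^ ζ) n).card +
        (((Icc 1 X).filter (fun m => SBad Y ζ ξ n m)).card +
          ((Icc 1 X).filter (fun m => SBad Y ξ υ n m)).card) := by
      unfold cnt
      have h7 : (Icc 1 ⌊x⌋₊).filter (fun p : ℕ => p.Prime ∧ x / 2 < p ∧ (p : ℝ) < x ∧
          0 < WW Y ζ υ lam (lam / υ) (n - p)) ⊆ gp r x ((Y : ℝ) ^ ζ) n ∪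
          ((Icc 1 X).filter (fun m => SBad Y ζ ξ n m) ∪ (Icc 1 X).filter (fun m => SBad Y ξ υ n m)) := by
        intro p hp
        rw [mem_filter] at hp
        obtain ⟨hp1, hp2, hp3, hp4, hp5⟩ := hp
        rw [mem_union, mem_union]
        by_cases hb : SBad Y ζ υ n p
        · right
          rcases sbad_split Y ζ ξ υ n p hb with h | h
          · left
            rw [mem_filter]
            exact ⟨hp1, h⟩
          · right
            rw [mem_filter]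
            exact ⟨hp1, h⟩
        · left
          have hpn : p < n := by
            have : (p : ℝ) < n := by
              have h8 : (Y : ℝ) < n := by exact_mod_cast hn1
              linarith
            exact_mod_cast this
          have hres := almost Y (by omega) ζ υ lam S r hζυ hυ0 hυ1 hlam hr (n - p)
            (by omega) (by
              have h8 : ((n - p : ℕ) : ℝ) ≤ 2 * Y := by
                have : n - p ≤ 2 * Y := by omega
                exact_mod_cast this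
              refine h8.trans ?_
              calc 2 * (Y : ℝ) ≤ (Y : ℝ) ^ (S - 1) * (Y : ℝ) ^ (1 : ℝ) := by
                    rw [Real.rpow_one]
                    exact mul_le_mul_of_nonneg_right e3 hY0.le
                _ = (Y : ℝ) ^ S := by
                    rw [← Real.rpow_add hY0]
                    congr 1
                    ring) hp5 (by
              intro q hq hqd
              apply hb
              refine ⟨q, hq, ?_⟩
              have h9 : ((n - p : ℕ) : ℤ) = (n : ℤ) - p := by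
                rw [Nat.cast_sub hpn.le]
              rw [← h9]
              exact_mod_cast hqd)
          unfold gp
          rw [mem_filter]
          exact ⟨hp1, hp2, hp3, hp4, hres.1, hres.2⟩
      refine (card_le_card h7).trans ((card_union_le _ _).trans ?_)
      exact Nat.add_le_add_left (card_union_le _ _) _
    have hkr : (cnt x (WW Y ζ υ lam (lam / υ)) n : ℝ) ≤ ((gp r x ((Y : ℝ) ^ ζ) n).card : ℝ) +
        ((((Icc 1 X).filter (fun m => SBad Y ζ ξ n m)).card : ℝ) +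
          (((Icc 1 X).filter (fun m => SBad Y ξ υ n m)).card : ℝ)) := by exact_mod_cast hkey
    have hs1 := one_le_sgs n
    have hsm : (X : ℝ) / t ≤ δ / 4 * x / Real.log Y ^ 2 * sgs n := by
      calc (X : ℝ) / t ≤ x / t := div_le_div_of_nonneg_right hXx ht0.le
        _ ≤ δ / 4 * x / Real.log Y ^ 2 := by
            rw [div_le_div_iff₀ ht0 (by positivity)]
            have h8 : Real.log Y ^ 2 ≤ δ / 16 * t := by
              have h9 := mul_le_mul_of_nonneg_left e1 (show 0 ≤ δ / 16 by positivity)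
              calc Real.log Y ^ 2 = δ / 16 * (16 / δ * Real.log Y ^ 2) := by field_simp
                _ ≤ _ := h9
            calc x * Real.log Y ^ 2 ≤ x * (δ / 16 * t) := mul_le_mul_of_nonneg_left h8 hx0.le
              _ ≤ δ / 4 * x * t := by
                  have : 0 < δ * x * t := by positivity
                  nlinarith
        _ ≤ δ / 4 * x / Real.log Y ^ 2 * sgs n := le_mul_of_one_le_right (by positivity) hs1
    have h10 : 0 < δ * x / Real.log Y ^ 2 * sgs n :=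
      mul_pos (by positivity) (lt_of_lt_of_le one_pos hs1)
    have h11 : δ / 4 * x / Real.log Y ^ 2 * sgs n = δ * x / Real.log Y ^ 2 * sgs n / 4 := by ring
    rw [h11] at hsm hlt
    linarith
  -- the numbers of exceptions
  set E : ℝ := max (2 * τ - θ) (max (1 - ξ) υ) with hE
  have u1 : (A1.card : ℝ) ≤ (Y : ℝ) ^ (E + ε / 2) := by
    refine (HD Y hY1 x le_rfl hxY A1 (by
      intro n hn
      rw [hA1, mem_filter, mem_Ioc] at hn
      exact ⟨hn.1.1, hn.1.2, hn.2.1, hn.2.2⟩)).trans ?_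
    apply Real.rpow_le_rpow_of_exponent_le hY1r
    have := le_max_left (2 * τ - θ) (max (1 - ξ) υ)
    linarith
  have u2 : (A2.card : ℝ) ≤ 5 * (Y : ℝ) ^ (E + ε / 4) := by
    have h12 := HS Y hY2 X (2 * Y) t (by omega) ht0
    refine h12.trans ?_
    have h13 : (((2 * Y : ℕ) : ℝ)) * (2 / (Y : ℝ) ^ ξ) = 4 * (Y : ℝ) ^ (1 - ξ) := by
      rw [Real.rpow_sub hY0, Real.rpow_one]
      push_cast
      ring
    rw [h13]
    have h14 : (Y : ℝ) ^ (1 - ξ) ≤ (Y : ℝ) ^ E :=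
      Real.rpow_le_rpow_of_exponent_le hY1r ((le_max_left _ _).trans (le_max_right _ _))
    have h15 : (Y : ℝ) ^ υ ≤ (Y : ℝ) ^ E :=
      Real.rpow_le_rpow_of_exponent_le hY1r ((le_max_right _ _).trans (le_max_right _ _))
    have h16 : t ≤ (Y : ℝ) ^ (ε / 4) := Real.rpow_le_rpow_of_exponent_le hY1r hsε
    calc t * (4 * (Y : ℝ) ^ (1 - ξ) + (Y : ℝ) ^ υ) ≤
        (Y : ℝ) ^ (ε / 4) * (4 * (Y : ℝ) ^ E + (Y : ℝ) ^ E) := by gcongr
      _ = 5 * ((Y : ℝ) ^ E * (Y : ℝ) ^ (ε / 4)) := by ring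
      _ = _ := by rw [← Real.rpow_add hY0]
  have u3 : (Y : ℝ) ^ (E + ε / 4) ≤ (Y : ℝ) ^ (E + ε / 2) :=
    Real.rpow_le_rpow_of_exponent_le hY1r (by linarith)
  calc (((Ioc Y (2 * Y)).filter (fun n => Even n ∧ ((gp r x ((Y : ℝ) ^ ζ) n).card : ℝ) <
        δ / 4 * x / Real.log Y ^ 2 * sgs n)).card : ℝ) ≤ ((A1 ∪ A2).card : ℝ) := by
        exact_mod_cast card_le_card hsub
    _ ≤ A1.card + A2.card := by exact_mod_cast card_union_le _ _
    _ ≤ 6 * (Y : ℝ) ^ (E + ε / 2) := by linarith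
    _ ≤ (Y : ℝ) ^ (ε / 4) * (Y : ℝ) ^ (E + ε / 2) := by gcongr; linarith
    _ = (Y : ℝ) ^ (ε / 4 + (E + ε / 2)) := by rw [← Real.rpow_add hY0]
    _ ≤ (Y : ℝ) ^ (E + ε) := Real.rpow_le_rpow_of_exponent_le hY1r (by linarith)

end Pool.Agent.Y882.GW
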