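import Pool.Agent.Y882.GW.Low

/-! Almost primes `n - p` with few exceptions, weighted sieve: one dyadic block. -/

set_option autoImplicit false

open Finset Filter Topology

namespace Pool.Agent.Y882.GW

open Pool.Agent.Y882
open Pool.Agent.Y882.KW
open Pool.Agent.H410R2
open Pool.Agent.Helper112 Pool.Agent.Helper112.BLB
open Pool.Agent.H732R2.B2 (Sc)

theorem dyadic (θ τ ζ υ aw bw ε : ℝ) (hθ0 : 0 < θ) (hθ1 : θ ≤ 1) (hζ0 : 0 < ζ)
    (h2 : 2 * ζ < τ) (h4 : τ ≤ 4 * ζ) (hτ2 : 1 / 2 ≤ τ) (hτ : τ < 1) (hζυ : ζ ≤ υ) (hυτ : υ < τ)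
    (ha : 0 ≤ aw) (hb : 0 ≤ bw) (hab : bw * υ ≤ aw)
    (hJ0 : ∫ x in ζ..υ, (aw - bw * x) / (τ - x) / x < Real.log (τ / ζ - 1) / τ)
    (hε : 0 < ε) : ∃ δ : ℝ, 0 < δ ∧ ∃ Y0 : ℕ, ∀ Y : ℕ, Y0 ≤ Y → ∀ x : ℝ, (Y : ℝ) ^ θ ≤ x →
      x ≤ Y → ∀ S : Finset ℕ, (∀ n ∈ S, Y < n ∧ n ≤ 2 * Y ∧ Even n ∧
        (cnt x (WW Y ζ υ aw bw) n : ℝ) < δ * x / Real.log Y ^ 2 * sgs n) →
      (S.card : ℝ) ≤ (Y : ℝ) ^ (2 * τ - θ + ε) := by
  classical
  -- parameters
  set κ : ℝ := min (ε / 32) (1 - τ) with hκ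
  have hκ0 : 0 < κ := lt_min (by linarith) (by linarith)
  have hκε : κ ≤ ε / 32 := min_le_left _ _
  have hκu : κ ≤ 1 - τ := min_le_right _ _
  set τ' : ℝ := τ + κ with hτ'
  have hτ'1 : τ' ≤ 1 := by rw [hτ']; linarith
  set δ' : ℝ := min (ε / 16) (1 / 4) with hδ'
  have hδ'0 : 0 < δ' := lt_min (by linarith) (by norm_num)
  have hδ'ε : δ' ≤ ε / 16 := min_le_left _ _
  have hδ'4 : δ' ≤ 1 / 4 := min_le_right _ _
  obtain ⟨c0, hc0, Y1, HW⟩ := wts τ ζ υ aw bw τ' hζ0 h2 h4 hτ.le hζυ hυτ ha hb hab hJ0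
    (by linarith)
  obtain ⟨CS, hCS, HSc⟩ := Pool.Agent.H732R2.B2.Sc_bound 1 zero_le_one
  obtain ⟨Cd, hCd, HCd⟩ := Pool.Agent.Helper112.divisor_bound (θ / 4) (by linarith)
  obtain ⟨X1, HBV⟩ := eventually_atTop.1 (bv_al bv_true δ' hδ'0 5)
  obtain ⟨X2, HM⟩ := eventually_atTop.1 mass
  set C7 : ℝ := 20 * CS * (4 / θ) ^ 5 with hC7
  set C9 : ℝ := 1000 * CS with hC9
  have ev0 : ∀ᶠ Y : ℕ in atTop, max (max X1 X2) 16 ≤ (Y : ℝ) ^ θ :=
    tendsto_natCast_atTop_atTop.eventually ((tendsto_rpow_atTop hθ0).eventually_ge_atTop _)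
  have ev1 : ∀ᶠ Y : ℕ in atTop, (3 : ℝ) ≤ (Y : ℝ) ^ κ :=
    tendsto_natCast_atTop_atTop.eventually ((tendsto_rpow_atTop hκ0).eventually_ge_atTop _)
  have ev2 : ∀ᶠ Y : ℕ in atTop, max (200 * C7 / c0) 2 ≤ Real.log Y :=
    tendsto_natCast_atTop_atTop.eventually (Real.tendsto_log_atTop.eventually_ge_atTop _)
  have ev3 := polylog (400 / c0) 2 (θ / 2) (by linarith)
  have ev4 := polylog (400 / c0 * (10 * CS)) 7 (θ / 2) (by linarith)
  have ev5 := polylog (400 / c0 * (40 * Cd)) 5 (θ / 2) (by linarith)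
  have ev6 := polylog (2000 * CS / c0) 7 (θ / 2) (by linarith)
  have ev7 := polylog (50 * C9 / c0) 7 (ε / 8) (by linarith)
  obtain ⟨Y2, HY2⟩ := eventually_atTop.1 (ev0.and (ev1.and (ev2.and (ev3.and (ev4.and (ev5.and
    (ev6.and (ev7.and (eventually_ge_atTop 3)))))))))
  refine ⟨c0 / 100, by positivity, max Y1 Y2, ?_⟩
  intro Y hY x hYx hxY S hS
  obtain ⟨f0, f1, f2, f3, f4, f5, f6, f7, f8⟩ := HY2 Y ((le_max_right _ _).trans hY)
  obtain ⟨c, w1, w2, w3, w4⟩ := HW Y ((le_max_left _ _).trans hY)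
  set L : ℝ := Real.log Y with hL
  have hYr : (3 : ℝ) ≤ Y := by exact_mod_cast f8
  have hY1 : (1 : ℝ) ≤ Y := by linarith
  have hY0 : (0 : ℝ) < Y := by linarith
  have hL2 : 2 ≤ L := (le_max_right _ _).trans f2
  have hL0 : 0 < L := by linarith
  have hx16 : 16 ≤ x := ((le_max_right _ _).trans f0).trans hYx
  have hxX1 : X1 ≤ x := (((le_max_left _ _).trans (le_max_left _ _)).trans f0).trans hYx
  have hxX2 : X2 ≤ x := (((le_max_right _ _).trans (le_max_left _ _)).trans f0).trans hYx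
  have hx0 : 0 < x := by linarith
  have hx1 : 1 ≤ x := by linarith
  have hlx : Real.log x ≤ L := Real.log_le_log hx0 hxY
  have hlx0 : 0 ≤ Real.log x := Real.log_nonneg hx1
  set X := ⌊x⌋₊ with hX
  have hXx : (X : ℝ) ≤ x := Nat.floor_le hx0.le
  have hXY : X ≤ Y := by exact_mod_cast hXx.trans hxY
  set M := ∑ m ∈ Icc 1 X, al x m with hMdef
  have hM : x / 20 ≤ M := HM x hxX2
  -- the levels
  set F0 : ℕ := ⌊(x / 2) ^ (1 / 2 - δ')⌋₊ with hF0
  set D0 : ℕ := ⌊(Y : ℝ) ^ τ'⌋₊ with hD0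
  set D : ℕ := max D0 F0 with hD
  have hF0D : F0 ≤ D := le_max_right _ _
  have hF01 : 1 ≤ F0 := by
    apply Nat.le_floor
    push_cast
    exact Real.one_le_rpow (by linarith) (by linarith)
  have hF0le : (F0 : ℝ) ≤ (x / 2) ^ (1 / 2 - δ') := Nat.floor_le (by positivity)
  have hF0x : (F0 : ℝ) ≤ √x := by
    rw [Real.sqrt_eq_rpow]
    refine hF0le.trans ?_
    calc (x / 2) ^ (1 / 2 - δ') ≤ (x / 2) ^ ((1 : ℝ) / 2) :=
          Real.rpow_le_rpow_of_exponent_le (by linarith) (by linarith)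
      _ ≤ x ^ ((1 : ℝ) / 2) := Real.rpow_le_rpow (by positivity) (by linarith) (by norm_num)
  have hD0le : (D0 : ℝ) ≤ (Y : ℝ) ^ τ' := Nat.floor_le (by positivity)
  have hsxY : √x ≤ (Y : ℝ) ^ ((1 : ℝ) / 2) := by
    rw [Real.sqrt_eq_rpow]
    exact Real.rpow_le_rpow hx0.le hxY (by norm_num)
  set μ : ℝ := max (1 / 2 + δ') τ' with hμ
  have hYμ1 : (Y : ℝ) ^ ((1 : ℝ) / 2) ≤ (Y : ℝ) ^ μ :=
    Real.rpow_le_rpow_of_exponent_le hY1 ((by linarith : (1 : ℝ) / 2 ≤ 1 / 2 + δ').trans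
      (le_max_left _ _))
  have hDμ : (D : ℝ) ≤ (Y : ℝ) ^ μ := by
    rw [hD]
    push_cast
    apply max_le
    · exact hD0le.trans (Real.rpow_le_rpow_of_exponent_le hY1 (le_max_right _ _))
    · exact hF0x.trans (hsxY.trans hYμ1)
  have hDY : (D : ℝ) ≤ Y := by
    rw [hD]
    push_cast
    apply max_le
    · refine hD0le.trans ?_
      calc (Y : ℝ) ^ τ' ≤ (Y : ℝ) ^ (1 : ℝ) := Real.rpow_le_rpow_of_exponent_le hY1 hτ'1
        _ = Y := Real.rpow_one _
    · refine hF0x.trans (hsxY.trans ?_)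
      calc (Y : ℝ) ^ ((1 : ℝ) / 2) ≤ (Y : ℝ) ^ (1 : ℝ) :=
            Real.rpow_le_rpow_of_exponent_le hY1 (by norm_num)
        _ = Y := Real.rpow_one _
  have hD1 : 1 ≤ D := hF01.trans hF0D
  have hlD : Real.log D ≤ L := Real.log_le_log (by exact_mod_cast hD1) hDY
  have hlD0 : 0 ≤ Real.log D := Real.log_natCast_nonneg D
  -- the sum of 1 / φ
  have hSc : Sc 1 D ≤ CS * L ^ 2 := by
    have h1 : Sc 1 D ≤ Sc 1 (max D 3) :=
      Pool.Agent.H732R2.B2.Sc_mono 1 zero_le_one (le_max_left _ _)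
    refine h1.trans ((HSc _ (le_max_right _ _)).trans ?_)
    apply mul_le_mul_of_nonneg_left _ hCS.le
    have h2 : (2 * (1 : ℝ)) = ((2 : ℕ) : ℝ) := by norm_num
    rw [h2, Real.rpow_natCast]
    apply pow_le_pow_left₀ (Real.log_natCast_nonneg _)
    apply Real.log_le_log
    · have : 0 < max D 3 := lt_of_lt_of_le (by norm_num) (le_max_right _ _)
      exact_mod_cast this
    · have : max D 3 ≤ Y := max_le (by exact_mod_cast hDY) f8
      exact_mod_cast this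
  have hSc0 : 0 ≤ Sc 1 D := by unfold Sc; positivity
  -- bounds for the noncoprime terms
  set R : ℝ := 2 * L ^ 3 with hR
  have hRb : ∀ g : ℕ, 1 ≤ g → g ≤ D →
      ∑ b ∈ (Icc 1 X).filter (fun b => ¬ b.Coprime g), |al x b| ≤ R := by
    intro g hg1 hgD
    refine (al_noncop x hx1 g hg1).trans ?_
    have h1 : Real.log g ≤ L := (Real.log_le_log (by exact_mod_cast hg1)
      (by exact_mod_cast hgD)).trans hlD
    have h2 : 0 ≤ Real.log g := Real.log_natCast_nonneg g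
    calc 2 * Real.log g * Real.log x ^ 2 ≤ 2 * L * L ^ 2 := by gcongr
      _ = R := by rw [hR]; ring
  set R' : ℝ := 4 * L ^ 3 with hR'
  have hRb' : ∀ n ∈ S, ∑ b ∈ (Icc 1 X).filter (fun b => ¬ b.Coprime n), |al x b| ≤ R' := by
    intro n hn
    obtain ⟨h1, h2, -, -⟩ := hS n hn
    refine (al_noncop x hx1 n (by omega)).trans ?_
    have h3 : Real.log n ≤ 2 * L := by
      have h4 : (n : ℝ) ≤ (Y : ℝ) ^ 2 := by
        have : n ≤ Y ^ 2 := by
          calc n ≤ 2 * Y := h2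
            _ ≤ Y * Y := Nat.mul_le_mul_right _ (by omega)
            _ = Y ^ 2 := (sq Y).symm
        exact_mod_cast this
      have h5 := Real.log_le_log (by
        have : 0 < n := by omega
        exact_mod_cast this) h4
      rw [Real.log_pow] at h5
      push_cast at h5
      exact h5
    have h4 : 0 ≤ Real.log n := Real.log_natCast_nonneg n
    calc 2 * Real.log n * Real.log x ^ 2 ≤ 2 * (2 * L) * L ^ 2 := by gcongr
      _ = R' := by rw [hR']; ring
  set B : ℝ := Cd * (2 * (Y : ℝ) ^ (θ / 4)) with hB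
  have hBb : ∀ n ∈ S, ∀ N : ℕ, 1 ≤ N → N ≤ n → (N.divisors.card : ℝ) ≤ B := by
    intro n hn N hN1 hNn
    obtain ⟨h1, h2, -, -⟩ := hS n hn
    refine (HCd N hN1).trans ?_
    rw [hB]
    apply mul_le_mul_of_nonneg_left _ hCd.le
    have h3 : (N : ℝ) ≤ 2 * Y := by
      have : N ≤ 2 * Y := hNn.trans h2
      exact_mod_cast this
    calc (N : ℝ) ^ (θ / 4) ≤ (2 * (Y : ℝ)) ^ (θ / 4) :=
          Real.rpow_le_rpow (by positivity) h3 (by linarith)
      _ = 2 ^ (θ / 4) * (Y : ℝ) ^ (θ / 4) := Real.mul_rpow (by norm_num) hY0.le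
      _ ≤ 2 * (Y : ℝ) ^ (θ / 4) := by
          apply mul_le_mul_of_nonneg_right _ (by positivity)
          calc (2 : ℝ) ^ (θ / 4) ≤ 2 ^ (1 : ℝ) :=
                Real.rpow_le_rpow_of_exponent_le (by norm_num) (by linarith)
            _ = 2 := Real.rpow_one _
  -- sizes
  set G : ℝ := x / L with hG
  have hG0 : 0 < G := by positivity
  have hsx : √x * √x = x := Real.mul_self_sqrt hx0.le
  have hsx0 : 0 < √x := Real.sqrt_pos.2 hx0
  have hYs : (Y : ℝ) ^ (θ / 2) ≤ √x := by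
    rw [Real.sqrt_eq_rpow]
    calc (Y : ℝ) ^ (θ / 2) = ((Y : ℝ) ^ θ) ^ ((1 : ℝ) / 2) := by
          rw [← Real.rpow_mul hY0.le]; congr 1; ring
      _ ≤ x ^ ((1 : ℝ) / 2) := Real.rpow_le_rpow (by positivity) hYx (by norm_num)
  have hYhalf : (Y : ℝ) ^ (θ / 4) ≤ √x := by
    refine le_trans ?_ hYs
    exact Real.rpow_le_rpow_of_exponent_le hY1 (by linarith)
  have hYs1 : (1 : ℝ) ≤ √x := by
    rw [Real.one_le_sqrt]; exact hx1
  -- (b)
  have eb : 2 * √x * L ≤ c0 / 200 * G := by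
    have h1 : 400 / c0 * L ^ 2 ≤ √x := f3.trans hYs
    rw [hG, mul_div_assoc', le_div_iff₀ hL0]
    have h2 : 400 / c0 * L ^ 2 * √x ≤ √x * √x := mul_le_mul_of_nonneg_right h1 hsx0.le
    rw [hsx] at h2
    have h3 : 2 * √x * L * L = c0 / 200 * (400 / c0 * L ^ 2 * √x) := by field_simp; ring
    rw [h3]
    exact mul_le_mul_of_nonneg_left h2 (by positivity)
  -- (a)
  have ea : 5 * L * (Sc 1 D * R + B * R') ≤ c0 / 200 * G := by
    have h1 : 400 / c0 * (10 * CS) * L ^ 7 ≤ √x := f4.trans hYs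
    have h2 : 400 / c0 * (40 * Cd) * L ^ 5 ≤ √x := f5.trans hYs
    have h3 : 5 * L * (Sc 1 D * R + B * R') ≤ 10 * CS * L ^ 6 + 40 * Cd * L ^ 4 * √x := by
      rw [hR, hR', hB]
      calc 5 * L * (Sc 1 D * (2 * L ^ 3) + Cd * (2 * (Y : ℝ) ^ (θ / 4)) * (4 * L ^ 3)) ≤
          5 * L * (CS * L ^ 2 * (2 * L ^ 3) + Cd * (2 * √x) * (4 * L ^ 3)) := by gcongr
        _ = _ := by ring
    refine h3.trans ?_
    rw [hG, mul_div_assoc', le_div_iff₀ hL0]
    have h4 : 400 / c0 * (10 * CS) * L ^ 7 ≤ x := by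
      calc _ ≤ √x := h1
        _ = 1 * √x := (one_mul _).symm
        _ ≤ √x * √x := mul_le_mul_of_nonneg_right hYs1 hsx0.le
        _ = x := hsx
    have h5 : 400 / c0 * (40 * Cd) * L ^ 5 * √x ≤ √x * √x := mul_le_mul_of_nonneg_right h2 hsx0.le
    rw [hsx] at h5
    have h6 : (10 * CS * L ^ 6 + 40 * Cd * L ^ 4 * √x) * L =
        c0 / 400 * (400 / c0 * (10 * CS) * L ^ 7) +
        c0 / 400 * (400 / c0 * (40 * Cd) * L ^ 5 * √x) := by field_simp
    rw [h6]
    have h7 := mul_le_mul_of_nonneg_left h4 (show 0 ≤ c0 / 400 by positivity)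
    have h8 := mul_le_mul_of_nonneg_left h5 (show 0 ≤ c0 / 400 by positivity)
    linarith
  -- (c)
  set BVs : ℝ := ∑ f ∈ Icc 2 F0, (1 / (Nat.totient f : ℝ)) * PA X (al x) f with hBVs
  have hBV := HBV x hxX1 F0 hF0le (by linarith)
  have hlx2 : θ / 4 * L ≤ Real.log (x / 2) := by
    have h1 : (Y : ℝ) ^ (θ / 4) ≤ x / 2 := by
      have h2 : (Y : ℝ) ^ (θ / 4) ≤ √x := hYhalf
      have h3 : √x ≤ x / 2 := by
        have h4 : 2 ≤ √x := by
          rw [Real.le_sqrt' (by norm_num)]; linarith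
        have h4' := mul_le_mul_of_nonneg_right h4 hsx0.le
        rw [hsx] at h4'
        linarith
      linarith
    have h5 := Real.log_le_log (by positivity) h1
    rw [Real.log_rpow hY0] at h5
    exact h5
  have ec : 5 * L * (Sc 1 D * (BVs + F0 * R)) ≤ c0 / 100 * G := by
    have h1 : BVs ≤ 4 * x * ((4 / θ) ^ 5 / L ^ 5) := by
      refine hBV.trans ?_
      have h2 : (θ / 4 * L) ^ 5 ≤ Real.log (x / 2) ^ 5 := pow_le_pow_left₀ (by positivity) hlx2 5
      calc 4 * x / Real.log (x / 2) ^ 5 ≤ 4 * x / (θ / 4 * L) ^ 5 :=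
            div_le_div_of_nonneg_left (by positivity) (by positivity) h2
        _ = _ := by
            rw [mul_pow, div_pow, div_pow]
            field_simp
    have hBVs0 : 0 ≤ BVs := by
      rw [hBVs]
      apply sum_nonneg
      intro f _
      unfold PA
      positivity
    have h2 : 5 * L * (Sc 1 D * BVs) ≤ C7 * x / L ^ 2 := by
      calc 5 * L * (Sc 1 D * BVs) ≤ 5 * L * (CS * L ^ 2 * (4 * x * ((4 / θ) ^ 5 / L ^ 5))) := by
            gcongr
        _ = C7 * x / L ^ 2 := by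
            rw [hC7]
            field_simp
            ring
    have h3 : C7 * x / L ^ 2 ≤ c0 / 200 * G := by
      have h4 : 200 * C7 / c0 ≤ L := (le_max_left _ _).trans f2
      rw [div_le_iff₀ hc0] at h4
      rw [hG, mul_div_assoc', div_le_div_iff₀ (by positivity) hL0]
      have h5 : C7 ≤ c0 / 200 * L := by linarith
      calc C7 * x * L ≤ (c0 / 200 * L) * x * L := by gcongr
        _ = c0 / 200 * x * L ^ 2 := by ring
    have h4 : 5 * L * (Sc 1 D * (F0 * R)) ≤ c0 / 200 * G := by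
      have h5 : 2000 * CS / c0 * L ^ 7 ≤ √x := f6.trans hYs
      have h6 : 5 * L * (Sc 1 D * (F0 * R)) ≤ 10 * CS * L ^ 6 * √x := by
        rw [hR]
        calc 5 * L * (Sc 1 D * (F0 * (2 * L ^ 3))) ≤ 5 * L * (CS * L ^ 2 * (√x * (2 * L ^ 3))) := by
              gcongr
          _ = _ := by ring
      refine h6.trans ?_
      rw [hG, mul_div_assoc', le_div_iff₀ hL0]
      have h7 : 2000 * CS / c0 * L ^ 7 * √x ≤ √x * √x := mul_le_mul_of_nonneg_right h5 hsx0.le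
      rw [hsx] at h7
      have h8 : 10 * CS * L ^ 6 * √x * L = c0 / 200 * (2000 * CS / c0 * L ^ 7 * √x) := by
        field_simp
        ring
      rw [h8]
      exact mul_le_mul_of_nonneg_left h7 (by positivity)
    have h5 : 5 * L * (Sc 1 D * (BVs + F0 * R)) = 5 * L * (Sc 1 D * BVs) +
        5 * L * (Sc 1 D * (F0 * R)) := by ring
    rw [h5]
    linarith
  -- the large sieve part
  set Z : ℕ := 2 * Y with hZ
  have hSZ : S ⊆ Icc 1 Z := by
    intro n hn
    obtain ⟨h1, h2, -, -⟩ := hS n hn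
    rw [mem_Icc]
    omega
  set ELS : ℝ := 12 * (1 + Real.log D) * (Real.sqrt (X * Z) / F0 + (Real.sqrt X + Real.sqrt Z) + D) *
        (Real.sqrt (∑ b ∈ Icc 1 X, al x b ^ 2) * Real.sqrt S.card) with hELS
  have hELSb : 5 * L * (Sc 1 D * ELS) ≤ C9 * L ^ 5 * (Y : ℝ) ^ μ * √x * √(S.card) := by
    have h1 : Real.sqrt (X * Z) / F0 ≤ 4 * (Y : ℝ) ^ μ := by
      have h2 : (x / 2) ^ (1 / 2 - δ') / 2 ≤ F0 := by
        have h3 : (x / 2) ^ (1 / 2 - δ') < F0 + 1 := Nat.lt_floor_add_one _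
        have h4 : (1 : ℝ) ≤ F0 := by exact_mod_cast hF01
        linarith
      rw [div_le_iff₀ (by exact_mod_cast hF01)]
      have h5 : Real.sqrt (X * Z) ≤ 2 * ((x / 2) ^ ((1 : ℝ) / 2) * (Y : ℝ) ^ ((1 : ℝ) / 2)) := by
        rw [← Real.mul_rpow (by positivity) hY0.le, ← Real.sqrt_eq_rpow]
        rw [Real.sqrt_le_left (by positivity), mul_pow, Real.sq_sqrt (by positivity)]
        rw [hZ]
        push_cast
        calc (X : ℝ) * (2 * Y) ≤ x * (2 * Y) := mul_le_mul_of_nonneg_right hXx (by positivity)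
          _ = 2 ^ 2 * (x / 2 * Y) := by ring
      refine h5.trans ?_
      have h6 : (x / 2) ^ ((1 : ℝ) / 2) * (Y : ℝ) ^ ((1 : ℝ) / 2) ≤
          (x / 2) ^ (1 / 2 - δ') * (Y : ℝ) ^ μ := by
        calc (x / 2) ^ ((1 : ℝ) / 2) * (Y : ℝ) ^ ((1 : ℝ) / 2) =
            (x / 2) ^ (1 / 2 - δ') * ((x / 2) ^ δ' * (Y : ℝ) ^ ((1 : ℝ) / 2)) := by
              rw [← mul_assoc, ← Real.rpow_add (by positivity)]
              congr 2
              ring
          _ ≤ (x / 2) ^ (1 / 2 - δ') * ((Y : ℝ) ^ δ' * (Y : ℝ) ^ ((1 : ℝ) / 2)) := by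
              apply mul_le_mul_of_nonneg_left _ (by positivity)
              apply mul_le_mul_of_nonneg_right _ (by positivity)
              exact Real.rpow_le_rpow (by positivity) (by linarith) hδ'0.le
          _ ≤ (x / 2) ^ (1 / 2 - δ') * (Y : ℝ) ^ μ := by
              apply mul_le_mul_of_nonneg_left _ (by positivity)
              rw [← Real.rpow_add hY0]
              apply Real.rpow_le_rpow_of_exponent_le hY1
              refine le_trans ?_ (le_max_left _ _)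
              linarith
      calc 2 * ((x / 2) ^ ((1 : ℝ) / 2) * (Y : ℝ) ^ ((1 : ℝ) / 2)) ≤
          2 * ((x / 2) ^ (1 / 2 - δ') * (Y : ℝ) ^ μ) := by linarith
        _ = 4 * (Y : ℝ) ^ μ * ((x / 2) ^ (1 / 2 - δ') / 2) := by ring
        _ ≤ 4 * (Y : ℝ) ^ μ * F0 := mul_le_mul_of_nonneg_left h2 (by positivity)
    have h2 : Real.sqrt X ≤ (Y : ℝ) ^ μ := by
      refine (Real.sqrt_le_sqrt hXx).trans (hsxY.trans hYμ1)
    have h3 : Real.sqrt Z ≤ 2 * (Y : ℝ) ^ μ := by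
      have h4 : Real.sqrt Z ≤ 2 * (Y : ℝ) ^ ((1 : ℝ) / 2) := by
        rw [← Real.sqrt_eq_rpow, Real.sqrt_le_left (by positivity), mul_pow, Real.sq_sqrt hY0.le,
          hZ]
        push_cast
        linarith
      linarith
    have h4 : Real.sqrt (∑ b ∈ Icc 1 X, al x b ^ 2) ≤ √x * L := by
      refine (Real.sqrt_le_sqrt (al_sq x hx1)).trans ?_
      rw [Real.sqrt_mul hx0.le, Real.sqrt_sq hlx0]
      exact mul_le_mul_of_nonneg_left hlx hsx0.le
    have h5 : ELS ≤ 12 * (2 * L) * (8 * (Y : ℝ) ^ μ) * ((√x * L) * √(S.card)) := by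
      rw [hELS]
      have h6 : 1 + Real.log D ≤ 2 * L := by linarith
      have h7 : Real.sqrt (X * Z) / F0 + (Real.sqrt X + Real.sqrt Z) + D ≤ 8 * (Y : ℝ) ^ μ := by
        linarith
      gcongr
    calc 5 * L * (Sc 1 D * ELS) ≤ 5 * L * (CS * L ^ 2 *
        (12 * (2 * L) * (8 * (Y : ℝ) ^ μ) * ((√x * L) * √(S.card)))) := by
          have : 0 ≤ ELS := by rw [hELS]; positivity
          gcongr
      _ = 960 * CS * L ^ 5 * (Y : ℝ) ^ μ * √x * √(S.card) := by ring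
      _ ≤ C9 * L ^ 5 * (Y : ℝ) ^ μ * √x * √(S.card) := by
          rw [hC9]
          have : 960 * CS ≤ 1000 * CS := by linarith
          gcongr
  -- the total error
  have herr := err_total X Z F0 D (al x) S hSZ hF01 hF0D c (5 * L) (by positivity) w1
    (fun d hd => (w2 d hd).1) R hRb
  have hcD : ∀ d, c d ≠ 0 → Squarefree d ∧ d ≤ D := by
    intro d hd
    refine ⟨(w2 d hd).1, ?_⟩
    exact (Nat.le_floor (w2 d hd).2).trans (le_max_left _ _)
  -- lower bounds for each n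
  have hpt : ∀ n ∈ S, ∑ d ∈ (Icc 1 D).filter (fun d => Nat.Coprime n d), c d * Ed X (al x) d n ≤
      -(c0 * 3 / 100 * G) := by
    intro n hn
    obtain ⟨h1, h2, h3, h4⟩ := hS n hn
    have h5 := lowT x (WW Y ζ υ aw bw) n D c (5 * L) B R R' hx1
      (hxY.trans_lt (by exact_mod_cast h1)) (by positivity) w1 hcD
      w3 (hBb n hn) hRb (by positivity) (hRb' n hn)
    have h6 := TT_le x (WW Y ζ υ aw bw) (fun N => WW_le_one Y ζ υ aw bw hb hab N) hx1 n
    have h7 : ∑ d ∈ (Icc 1 D).filter (fun d => Nat.Coprime n d),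
        c d * (1 / (Nat.totient d : ℝ)) =
        ∑ d ∈ (Icc 1 D0).filter (fun d => Nat.Coprime n d), c d * (1 / (Nat.totient d : ℝ)) := by
      symm
      apply sum_subset
      · intro d hd
        rw [mem_filter, mem_Icc] at hd ⊢
        exact ⟨⟨hd.1.1, hd.1.2.trans (le_max_left _ _)⟩, hd.2⟩
      · intro d hd hd'
        rw [mem_filter, mem_Icc] at hd hd'
        have : c d = 0 := by
          by_contra hne
          exact hd' ⟨⟨hd.1.1, Nat.le_floor (w2 d hne).2⟩, hd.2⟩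
        rw [this, zero_mul]
    have h8 := w4 n (by omega) h2 h3
    rw [← h7] at h8
    have hs1 := one_le_sgs n
    have h10 : Real.log x * cnt x (WW Y ζ υ aw bw) n ≤ c0 / 100 * G * sgs n := by
      calc Real.log x * cnt x (WW Y ζ υ aw bw) n ≤ L * (c0 / 100 * x / L ^ 2 * sgs n) := by
            apply mul_le_mul hlx h4.le (by positivity) hL0.le
        _ = c0 / 100 * G * sgs n := by
            rw [hG]
            field_simp
    have h11 : x / 20 * (c0 / L * sgs n) ≤ M * ∑ d ∈ (Icc 1 D).filter (fun d => Nat.Coprime n d),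
        c d * (1 / (Nat.totient d : ℝ)) := by
      apply mul_le_mul hM h8 (by positivity)
      exact le_trans (by positivity) hM
    have h12 : x / 20 * (c0 / L * sgs n) = c0 * 5 / 100 * G * sgs n := by
      rw [hG]
      field_simp
      ring
    have h13 : 2 * √x * Real.log x ≤ 2 * √x * L := mul_le_mul_of_nonneg_left hlx (by positivity)
    have h14 : G ≤ G * sgs n := le_mul_of_one_le_right hG0.le hs1
    have h15 : c0 * G ≤ c0 * (G * sgs n) := mul_le_mul_of_nonneg_left h14 hc0.le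
    linarith
  -- exchange of the sums
  have hswap : ∑ n ∈ S, ∑ d ∈ (Icc 1 D).filter (fun d => Nat.Coprime n d),
      c d * Ed X (al x) d n = ∑ d ∈ Icc 1 D, c d * ∑ n ∈ S.filter (fun n => n.Coprime d),
        Ed X (al x) d n := by
    simp_rw [sum_filter]
    rw [sum_comm]
    apply sum_congr rfl
    intro d _
    rw [mul_sum]
    apply sum_congr rfl
    intro n _
    split_ifs <;> simp
  have hsum := sum_le_sum hpt
  rw [hswap, sum_const, nsmul_eq_mul] at hsum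
  have habs := (abs_le.1 herr).1
  -- conclusion
  have hfin : (S.card : ℝ) * (c0 / 50 * G) ≤ C9 * L ^ 5 * (Y : ℝ) ^ μ * √x * √(S.card) := by
    have h1 : 5 * L * (Sc 1 D * (S.card * (BVs + F0 * R) + ELS)) =
        S.card * (5 * L * (Sc 1 D * (BVs + F0 * R))) + 5 * L * (Sc 1 D * ELS) := by ring
    have h2 : (S.card : ℝ) * (5 * L * (Sc 1 D * (BVs + F0 * R))) ≤ S.card * (c0 / 100 * G) :=
      mul_le_mul_of_nonneg_left ec (by positivity)
    have h3 : (S.card : ℝ) * (c0 * 3 / 100 * G) ≤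
        5 * L * (Sc 1 D * (S.card * (BVs + F0 * R) + ELS)) := by
      linarith
    rw [h1] at h3
    linarith
  rcases Nat.eq_zero_or_pos S.card with h0 | h0
  · rw [h0]
    push_cast
    positivity
  have hcard : (0 : ℝ) < S.card := by exact_mod_cast h0
  have hsc : √(S.card : ℝ) * √(S.card : ℝ) = S.card := Real.mul_self_sqrt hcard.le
  have hsc0 : 0 < √(S.card : ℝ) := Real.sqrt_pos.2 hcard
  have h1 : √(S.card : ℝ) * √x ≤ 50 * C9 / c0 * L ^ 6 * (Y : ℝ) ^ μ := by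
    have h2 : (√(S.card : ℝ) * √x) * (√(S.card : ℝ) * √x * (c0 / 50)) ≤
        (50 * C9 / c0 * L ^ 6 * (Y : ℝ) ^ μ) * (√(S.card : ℝ) * √x * (c0 / 50)) := by
      have e1 : (√(S.card : ℝ) * √x) * (√(S.card : ℝ) * √x * (c0 / 50)) =
          (√(S.card : ℝ) * √(S.card : ℝ)) * (c0 / 50 * ((√x * √x) / L)) * L := by
        field_simp
      have e2 : (50 * C9 / c0 * L ^ 6 * (Y : ℝ) ^ μ) * (√(S.card : ℝ) * √x * (c0 / 50)) =
          C9 * L ^ 5 * (Y : ℝ) ^ μ * √x * √(S.card) * L := by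
        field_simp
      rw [e1, e2, hsc, hsx]
      exact mul_le_mul_of_nonneg_right hfin hL0.le
    exact le_of_mul_le_mul_right h2 (by positivity)
  have h2 : 50 * C9 / c0 * L ^ 6 ≤ (Y : ℝ) ^ (ε / 8) := by
    refine le_trans ?_ f7
    have h3 : L ^ 6 ≤ L ^ 7 := pow_le_pow_right₀ (by linarith) (by norm_num)
    have h4 : 0 ≤ 50 * C9 / c0 := by rw [hC9]; positivity
    exact mul_le_mul_of_nonneg_left h3 h4
  have h3 : √(S.card : ℝ) * √x ≤ (Y : ℝ) ^ (ε / 8 + μ) := by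
    rw [Real.rpow_add hY0]
    exact h1.trans (mul_le_mul_of_nonneg_right h2 (by positivity))
  have h4 : (S.card : ℝ) * (Y : ℝ) ^ θ ≤ (Y : ℝ) ^ (2 * (ε / 8 + μ)) := by
    have h5 : (√(S.card : ℝ) * √x) * (√(S.card : ℝ) * √x) ≤
        (Y : ℝ) ^ (ε / 8 + μ) * (Y : ℝ) ^ (ε / 8 + μ) :=
      mul_le_mul h3 h3 (by positivity) (by positivity)
    rw [← Real.rpow_add hY0] at h5
    have e1 : (√(S.card : ℝ) * √x) * (√(S.card : ℝ) * √x) = S.card * x := by
      calc _ = (√(S.card : ℝ) * √(S.card : ℝ)) * (√x * √x) := by ring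
        _ = _ := by rw [hsc, hsx]
    rw [e1] at h5
    calc (S.card : ℝ) * (Y : ℝ) ^ θ ≤ S.card * x := mul_le_mul_of_nonneg_left hYx hcard.le
      _ ≤ _ := h5
      _ = _ := by congr 1; ring
  have h5 : (S.card : ℝ) ≤ (Y : ℝ) ^ (2 * (ε / 8 + μ) - θ) := by
    rw [Real.rpow_sub hY0, le_div_iff₀ (by positivity)]
    exact h4
  refine h5.trans (Real.rpow_le_rpow_of_exponent_le hY1 ?_)
  have h6 : μ ≤ τ + ε / 8 := by
    rw [hμ]
    apply max_le
    · linarith
    · rw [hτ']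
      linarith
  linarith

end Pool.Agent.Y882.GW
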