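import Pool.Agent.Y882.SI.Sq
import Pool.Agent.Y882.GW.Fin

/-! Few shifts `n` for which `n - m` is divisible by the square of a medium prime for many `m`. -/

set_option autoImplicit false

namespace Pool.Agent.Y882.GW

open Finset Filter
open Pool.Agent.W23.DC
open Pool.Agent.Y882
open Pool.Agent.Y882.PX
open Pool.Agent.Y882.SI
open Pool.Agent.W378.DC.TMP

open Classical in
theorem pr_sq (ζ υ : ℝ) (hζ : 0 < ζ) (hυ : υ ≤ 1) : ∃ Y0 : ℕ, ∀ Y : ℕ, Y0 ≤ Y →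
    ∑ q ∈ pr Y ζ υ, 1 / (q : ℝ) ^ 2 ≤ 2 / (Y : ℝ) ^ ζ ∧ ((pr Y ζ υ).card : ℝ) ≤ (Y : ℝ) ^ υ := by
  have ev1 : ∀ᶠ Y : ℕ in atTop, (4 : ℝ) ≤ (Y : ℝ) ^ ζ :=
    ((tendsto_rpow_atTop hζ).comp tendsto_natCast_atTop_atTop).eventually_ge_atTop _
  obtain ⟨Y1, hY1⟩ := eventually_atTop.1 (ev1.and (eventually_ge_atTop 3))
  refine ⟨Y1, fun Y hY => ?_⟩
  obtain ⟨e1, e2⟩ := hY1 Y hY
  have hYr : (3 : ℝ) ≤ Y := by exact_mod_cast e2
  have hY0 : (0 : ℝ) < Y := by linarith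
  have hA1 : 1 ≤ ⌈(Y : ℝ) ^ ζ⌉₊ := Nat.ceil_pos.2 (by positivity)
  set A := ⌈(Y : ℝ) ^ ζ⌉₊ - 1 with hA
  have hAl : (Y : ℝ) ^ ζ - 1 ≤ (A : ℝ) := by
    have h2 := Nat.le_ceil ((Y : ℝ) ^ ζ)
    rw [hA, Nat.cast_sub hA1]
    push_cast
    linarith
  have hA3 : (3 : ℝ) ≤ A := by linarith
  have hA0 : 1 ≤ A := by
    have : (1 : ℝ) ≤ A := by linarith
    exact_mod_cast this
  constructor
  · rw [pr_eq (by omega) hυ, ← hA]
    have h4 : ∀ B : ℕ, A ≤ B → ∑ q ∈ Ioc A B, 1 / (q : ℝ) ^ 2 ≤ 1 / (A : ℝ) - 1 / (B : ℝ) := by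
      intro B hB
      induction B, hB using Nat.le_induction with
      | base => simp
      | succ B hB ih =>
        rw [sum_Ioc_succ_top hB]
        have hB0 : (0 : ℝ) < B := by exact_mod_cast (by omega : 0 < B)
        have h5 : 1 / (((B + 1 : ℕ) : ℝ)) ^ 2 ≤ 1 / (B : ℝ) - 1 / ((B + 1 : ℕ) : ℝ) := by
          push_cast
          rw [div_sub_div _ _ hB0.ne' (by positivity),
            div_le_div_iff₀ (by positivity) (by positivity)]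
          nlinarith
        linarith
    calc ∑ q ∈ (Ioc A (⌈(Y : ℝ) ^ υ⌉₊ - 1)).filter Nat.Prime, 1 / (q : ℝ) ^ 2 ≤
        ∑ q ∈ Ioc A (⌈(Y : ℝ) ^ υ⌉₊ - 1), 1 / (q : ℝ) ^ 2 :=
          sum_le_sum_of_subset_of_nonneg (filter_subset _ _) (fun _ _ _ => by positivity)
      _ ≤ 1 / (A : ℝ) := by
          rcases le_or_gt A (⌈(Y : ℝ) ^ υ⌉₊ - 1) with h | h
          · have h7 := h4 _ h
            have : (0 : ℝ) ≤ 1 / ((⌈(Y : ℝ) ^ υ⌉₊ - 1 : ℕ) : ℝ) := by positivity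
            linarith
          · rw [Ioc_eq_empty (by omega), sum_empty]
            positivity
      _ ≤ 2 / (Y : ℝ) ^ ζ := by
          rw [div_le_div_iff₀ (by linarith) (by positivity)]
          linarith
  · rw [pr_eq (by omega) hυ]
    calc (((Ioc (⌈(Y : ℝ) ^ ζ⌉₊ - 1) (⌈(Y : ℝ) ^ υ⌉₊ - 1)).filter Nat.Prime).card : ℝ) ≤
        ((Ioc (⌈(Y : ℝ) ^ ζ⌉₊ - 1) (⌈(Y : ℝ) ^ υ⌉₊ - 1)).card : ℝ) := by
          exact_mod_cast card_filter_le _ _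
      _ ≤ ((⌈(Y : ℝ) ^ υ⌉₊ - 1 : ℕ) : ℝ) := by
          rw [Nat.card_Ioc]
          exact_mod_cast Nat.sub_le _ _
      _ ≤ _ := by
          have h3 : 1 ≤ ⌈(Y : ℝ) ^ υ⌉₊ := Nat.ceil_pos.2 (by positivity)
          have h4 := Nat.ceil_lt_add_one (show 0 ≤ (Y : ℝ) ^ υ by positivity)
          rw [Nat.cast_sub h3]
          push_cast
          linarith

/-- `n - m` is divisible by the square of a medium prime -/
def SBad (Y : ℕ) (ζ υ : ℝ) (n m : ℕ) : Prop :=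
  ∃ q ∈ pr Y ζ υ, ((q ^ 2 : ℕ) : ℤ) ∣ (n : ℤ) - m

open Classical in
theorem shift_pos (ζ υ : ℝ) (hζ : 0 < ζ) (hυ : υ ≤ 1) : ∃ Y0 : ℕ, ∀ Y : ℕ, Y0 ≤ Y →
    ∀ (X M : ℕ) (t : ℝ), 0 < X → 0 < t →
    (((Icc 1 M).filter (fun n => (X : ℝ) / t <
      (((Icc 1 X).filter (fun m => SBad Y ζ υ n m)).card : ℝ))).card : ℝ) ≤
      t * (M * (2 / (Y : ℝ) ^ ζ) + (Y : ℝ) ^ υ) := by
  obtain ⟨Y0, H⟩ := pr_sq ζ υ hζ hυ
  refine ⟨max Y0 2, fun Y hY X M t hX ht => ?_⟩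
  obtain ⟨g1, g2⟩ := H Y ((le_max_left _ _).trans hY)
  have hY2 : 2 ≤ Y := (le_max_right _ _).trans hY
  have hXr : (0 : ℝ) < X := by exact_mod_cast hX
  set A := (Icc 1 M).filter (fun n => (X : ℝ) / t <
      (((Icc 1 X).filter (fun m => SBad Y ζ υ n m)).card : ℝ)) with hA
  have h1 : (A.card : ℝ) * (X / t) ≤
      ∑ n ∈ Icc 1 M, (((Icc 1 X).filter (fun m => SBad Y ζ υ n m)).card : ℝ) := by
    calc (A.card : ℝ) * (X / t) = ∑ n ∈ A, (X / t : ℝ) := by rw [sum_const, nsmul_eq_mul]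
      _ ≤ ∑ n ∈ A, (((Icc 1 X).filter (fun m => SBad Y ζ υ n m)).card : ℝ) := by
          apply sum_le_sum
          intro n hn
          rw [hA, mem_filter] at hn
          exact hn.2.le
      _ ≤ _ := sum_le_sum_of_subset_of_nonneg (filter_subset _ _) (fun _ _ _ => Nat.cast_nonneg _)
  have h2 : ∑ n ∈ Icc 1 M, (((Icc 1 X).filter (fun m => SBad Y ζ υ n m)).card : ℝ) ≤
      X * (M * (2 / (Y : ℝ) ^ ζ) + (Y : ℝ) ^ υ) := by
    have h3 : ∑ n ∈ Icc 1 M, (((Icc 1 X).filter (fun m => SBad Y ζ υ n m)).card : ℝ) =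
        ∑ m ∈ Icc 1 X, (((Icc 1 M).filter (fun n => SBad Y ζ υ n m)).card : ℝ) := by
      simp_rw [card_filter]
      push_cast
      rw [sum_comm]
    rw [h3]
    have h4 : ∀ m ∈ Icc 1 X, (((Icc 1 M).filter (fun n => SBad Y ζ υ n m)).card : ℝ) ≤
        M * (2 / (Y : ℝ) ^ ζ) + (Y : ℝ) ^ υ := by
      intro m _
      have hsub : (Icc 1 M).filter (fun n => SBad Y ζ υ n m) ⊆ (pr Y ζ υ).biUnion
          (fun q => (Icc 1 M).filter (fun n : ℕ => ((q ^ 2 : ℕ) : ℤ) ∣ (n : ℤ) - m)) := by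
        intro n hn
        rw [mem_filter] at hn
        obtain ⟨hn1, q, hq, hqn⟩ := hn
        rw [mem_biUnion]
        exact ⟨q, hq, by rw [mem_filter]; exact ⟨hn1, hqn⟩⟩
      calc (((Icc 1 M).filter (fun n => SBad Y ζ υ n m)).card : ℝ) ≤
          ((∑ q ∈ pr Y ζ υ, ((Icc 1 M).filter
            (fun n : ℕ => ((q ^ 2 : ℕ) : ℤ) ∣ (n : ℤ) - m)).card : ℕ) : ℝ) := by
            exact_mod_cast (card_le_card hsub).trans card_biUnion_le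
        _ ≤ ∑ q ∈ pr Y ζ υ, (M * (1 / (q : ℝ) ^ 2) + 1) := by
            push_cast
            apply sum_le_sum
            intro q hq
            obtain ⟨hq1, _, _⟩ := pr_mem Y q ζ υ hY2 hq
            have h5 := class_count (q ^ 2) (pow_pos hq1.pos 2) M m
            push_cast at h5
            refine h5.trans (le_of_eq ?_)
            ring
        _ = M * ∑ q ∈ pr Y ζ υ, 1 / (q : ℝ) ^ 2 + (pr Y ζ υ).card := by
            rw [sum_add_distrib, ← mul_sum, sum_const, nsmul_eq_mul, mul_one]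
        _ ≤ _ := add_le_add (mul_le_mul_of_nonneg_left g1 (Nat.cast_nonneg _)) g2
    calc ∑ m ∈ Icc 1 X, (((Icc 1 M).filter (fun n => SBad Y ζ υ n m)).card : ℝ) ≤
        ∑ m ∈ Icc 1 X, (M * (2 / (Y : ℝ) ^ ζ) + (Y : ℝ) ^ υ) := sum_le_sum h4
      _ = _ := by
          rw [sum_const, nsmul_eq_mul, Nat.card_Icc, Nat.add_sub_cancel]
  have h6 := h1.trans h2
  have h7 : (A.card : ℝ) * X ≤ (t * (M * (2 / (Y : ℝ) ^ ζ) + (Y : ℝ) ^ υ)) * X := by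
    rw [mul_div_assoc', div_le_iff₀ ht] at h6
    linarith
  exact le_of_mul_le_mul_right h7 hXr

end Pool.Agent.Y882.GW
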